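import Pool.Agent.MDG.Stmts

/-!
# Squad MDG, row TUN: simultaneous choice of representatives
-/

set_option autoImplicit false

open Finset Pool.Agent.HEC

namespace Pool.Agent.MDG.H19

open Pool.Agent.MDG

theorem tun : TunStmt := by
  classical
  intro I _ a s A M z0 hM hA hs
  have hM' : (0 : ℝ) < M := by exact_mod_cast hM
  set z : I → ℤ := fun i => ⌊(a i - s i) / M⌋ with hz
  have h1 : ∀ i, s i + M * (z i : ℝ) ≤ a i := by
    intro i
    have h := Int.floor_le ((a i - s i) / (M : ℝ))
    rw [le_div_iff₀ hM'] at h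
    simp only [hz]
    nlinarith
  have h2 : ∀ i, a i < s i + M * (z i : ℝ) + M := by
    intro i
    have h := Int.lt_floor_add_one ((a i - s i) / (M : ℝ))
    rw [div_lt_iff₀ hM'] at h
    simp only [hz]
    nlinarith
  set q : ℤ := -z0 - ∑ i, z i with hq
  have hD : ∑ i, (a i - (s i + M * (z i : ℝ))) = M * (q : ℝ) := by
    rw [Finset.sum_sub_distrib, Finset.sum_add_distrib, hA, hs, ← Finset.mul_sum, hq]
    push_cast
    ring
  have hq0 : 0 ≤ q := by
    have h : 0 ≤ (M : ℝ) * (q : ℝ) := by
      rw [← hD]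
      exact Finset.sum_nonneg fun i _ => by linarith [h1 i]
    have h' : 0 ≤ (q : ℝ) := nonneg_of_mul_nonneg_right h hM'
    exact_mod_cast h'
  have hq1 : q ≤ Fintype.card I := by
    have h : (M : ℝ) * (q : ℝ) ≤ M * (Fintype.card I : ℝ) := by
      rw [← hD]
      calc ∑ i, (a i - (s i + M * (z i : ℝ))) ≤ ∑ _i : I, (M : ℝ) :=
            Finset.sum_le_sum fun i _ => by linarith [h2 i]
        _ = M * (Fintype.card I : ℝ) := by
            rw [Finset.sum_const, Finset.card_univ, nsmul_eq_mul, mul_comm]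
    have h' : (q : ℝ) ≤ (Fintype.card I : ℝ) := le_of_mul_le_mul_left h hM'
    exact_mod_cast h'
  obtain ⟨J, _, hJ⟩ := Finset.exists_subset_card_eq (s := (Finset.univ : Finset I)) (n := q.toNat)
    (by rw [Finset.card_univ]; omega)
  refine ⟨fun i => s i + M * (z i : ℝ) + if i ∈ J then (M : ℝ) else 0, ?_, ?_, ?_⟩
  · intro i
    by_cases hi : i ∈ J
    · refine ⟨z i + 1, ?_⟩
      simp only [if_pos hi]
      push_cast
      ring
    · refine ⟨z i, ?_⟩
      simp only [if_neg hi]
      ring
  · intro i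
    have g1 := h1 i
    have g2 := h2 i
    by_cases hi : i ∈ J
    · simp only [if_pos hi]
      rw [abs_le]
      constructor <;> linarith
    · simp only [if_neg hi]
      rw [abs_le]
      constructor <;> linarith
  · have e1 : ∑ i, (s i + M * (z i : ℝ)) = A - M * (q : ℝ) := by
      rw [← hD, Finset.sum_sub_distrib, hA]
      ring
    have e2 : ∑ i : I, (if i ∈ J then (M : ℝ) else 0) = M * (q : ℝ) := by
      rw [Finset.sum_ite_mem, Finset.univ_inter, Finset.sum_const, hJ, nsmul_eq_mul]
      have h3 : ((q.toNat : ℕ) : ℝ) = (q : ℝ) := by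
        have h4 : ((q.toNat : ℕ) : ℤ) = q := Int.toNat_of_nonneg hq0
        exact_mod_cast h4
      rw [h3]
      ring
    rw [Finset.sum_add_distrib, e1, e2]
    ring

end Pool.Agent.MDG.H19
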